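import Pool.Agent.Helper11.KS.Sheet
open MeasureTheory Metric Set Filter Topology Real
open scoped ENNReal NNReal

/-!
# Rows FI1, FI2, FI3 of KS (MP_665203_co), and the first three parts of FI4
-/

namespace H11ST
namespace KS
open NH
namespace Fig63

/-- bounds for the root of three -/
theorem s_facts : (√3) ^ 2 = 3 ∧ 0 < √3 ∧ 1.732 < √3 ∧ √3 < 1.7321 := by
  refine ⟨Real.sq_sqrt (by norm_num), by positivity, ?_, ?_⟩
  · rw [Real.lt_sqrt (by norm_num)]; norm_num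
  · rw [Real.sqrt_lt' (by norm_num)]; norm_num

theorem q_bound {t k ρ' s x y u v r1 r2 a : ℝ} (hs0 : 1.732 < s) (hs3 : s ^ 2 = 3)
    (hx : |x| ≤ t) (hy : |y| ≤ t) (hu : k ≤ u) (hu1 : u ≤ 1) (hv : k ≤ v) (hv1 : v ≤ 1)
    (h1 : 0 ≤ r1) (h1' : r1 ≤ ρ') (h2 : 0 ≤ r2) (h2' : r2 ≤ ρ') (ha : 0 < a) (ha' : a < 2 * t)
    (hk : 3 * t + 2 * ρ' ≤ 2 * k)
    (N : (3 / 2 * t + (1 - k) / 2 + ρ' / 2) ^ 2 + (t / 2 + 0.5774) ^ 2 ≤ 1) :
    (3 / 2 * x + (v - u) / 2 - (r2 - r1) / 2) ^ 2 +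
      (y / 2 + (u + v - 3 / 2 * a - r1 - r2) / (2 * s)) ^ 2 ≤ 1 := by
  rw [abs_le] at hx hy
  have hs : 0 < s := by linarith
  have e1 : (u + v - 3 / 2 * a - r1 - r2) / (2 * s) ≤ 0.5774 := by
    rw [div_le_iff₀ (by linarith)]
    nlinarith
  have e2 : 0 ≤ (u + v - 3 / 2 * a - r1 - r2) / (2 * s) := by
    apply div_nonneg _ (by linarith)
    linarith
  have b1 : (3 / 2 * x + (v - u) / 2 - (r2 - r1) / 2) ^ 2 ≤
      (3 / 2 * t + (1 - k) / 2 + ρ' / 2) ^ 2 := by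
    apply sq_le_sq'
    · linarith
    · linarith
  have b2 : (y / 2 + (u + v - 3 / 2 * a - r1 - r2) / (2 * s)) ^ 2 ≤ (t / 2 + 0.5774) ^ 2 := by
    apply sq_le_sq'
    · linarith
    · linarith
  linarith

/-- the setting -/
structure Dat (τ t η ρ k : ℝ) : Prop where
  t0 : 0 < t
  t1 : t < 1
  τ0 : 0 < τ
  η1 : η ≤ 1
  η0 : 0 ≤ η
  ρ0 : 0 ≤ ρ
  k0 : 0 < k
  kk : k ^ 2 ≤ 1 - t ^ 2
  n1 : 2 * (η * ρ) ≤ 2 * (k - (1 - η) * ρ) - 1 - 1.7321 * t + 3 * τ * (1 - t)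
  hk : 3 * t + 2 * ((1 - η) * ρ) ≤ 2 * k
  n2 : (3 / 2 * t + (1 - k) / 2 + (1 - η) * ρ / 2) ^ 2 + (t / 2 + 0.5774) ^ 2 ≤ 1

/-- everything except the last inequality, and the data for it -/
theorem main {τ t η ρ k : ℝ} (D : Dat τ t η ρ k) (p g a : ℝ) (R : Fin 4 → ℝ) (ha : 0 < a)
    (h1 : (p + a / 2) ^ 2 + g ^ 2 < t ^ 2) (h2 : (p - a / 2) ^ 2 + g ^ 2 < t ^ 2)
    (hτ : τ * (1 - √(p ^ 2 + g ^ 2)) ≤ a / 2) (hR0 : ∀ i, 0 ≤ R i) (hR : ∀ i, R i ≤ ρ)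
    (C l : Fin 4 → ℝ)
    (c0 : C 0 = √(1 - ((g - √3 * p) / 2 - √3 / 4 * a) ^ 2) - ((p + a / 2) / 2 + √3 / 2 * g) -
      (1 - η) * R 0)
    (c1 : C 1 = √(1 - ((g + √3 * p) / 2 - √3 / 4 * a) ^ 2) - (-(p - a / 2) / 2 + √3 / 2 * g) -
      (1 - η) * R 1)
    (c2 : C 2 = √(1 - ((g - √3 * p) / 2 + √3 / 4 * a) ^ 2) - (-(p - a / 2) / 2 - √3 / 2 * g) -
      (1 - η) * R 2)
    (c3 : C 3 = √(1 - ((g + √3 * p) / 2 + √3 / 4 * a) ^ 2) - ((p + a / 2) / 2 - √3 / 2 * g) -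
      (1 - η) * R 3)
    (l0 : l 0 = (a + (C 0 + C 1) / 2) / √3 + √3 / 2 * (C 0 - C 1))
    (l1 : l 1 = (a + (C 0 + C 1) / 2) / √3 - √3 / 2 * (C 0 - C 1))
    (l2 : l 2 = (a + (C 2 + C 3) / 2) / √3 + √3 / 2 * (C 2 - C 3))
    (l3 : l 3 = (a + (C 2 + C 3) / 2) / √3 - √3 / 2 * (C 2 - C 3)) :
    (∀ i, 2 / √3 * (η * ρ) ≤ l i) ∧
    (p + (C 1 - C 0) / 2) ^ 2 + (g + (C 0 + C 1 - a) / (2 * √3)) ^ 2 ≤ 1 ∧
    (p + (C 2 - C 3) / 2) ^ 2 + (g - (C 2 + C 3 - a) / (2 * √3)) ^ 2 ≤ 1 ∧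
    l 0 + l 1 + l 2 + l 3 = (4 * a + (C 0 + C 1 + C 2 + C 3)) / √3 ∧ a < 2 * t ∧
    4 * k - 4 * ((1 - η) * ρ) - a ≤ C 0 + C 1 + C 2 + C 3 ∧
    |C 0 + C 2 - C 1 - C 3| ≤ 2 * (1 - k) + 2 * ((1 - η) * ρ) := by
  obtain ⟨s3, s0, sl, su⟩ := s_facts
  obtain ⟨s, es⟩ : ∃ s, s = √3 := ⟨_, rfl⟩
  rw [← es] at s3 s0 sl su c0 c1 c2 c3 l0 l1 l2 l3 ⊢
  have t0 := D.t0
  have m2 : p ^ 2 + g ^ 2 < t ^ 2 := by nlinarith
  have m1 : √(p ^ 2 + g ^ 2) ≤ t := by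
    rw [Real.sqrt_le_left t0.le]
    exact m2.le
  have a2t : a < 2 * t := by
    by_contra h
    rw [not_lt] at h
    nlinarith
  have alow : 2 * τ * (1 - t) ≤ a := by
    have := mul_le_mul_of_nonneg_left m1 D.τ0.le
    nlinarith
  have pt : |p| ≤ t := abs_le_of_sq_le_sq (by nlinarith [sq_nonneg g]) t0.le
  have gt : |g| ≤ t := abs_le_of_sq_le_sq (by nlinarith [sq_nonneg p]) t0.le
  -- the heights
  have q0 : ((g - s * p) / 2 - s / 4 * a) ^ 2 ≤ (p + a / 2) ^ 2 + g ^ 2 := by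
    nlinarith [sq_nonneg (s * g + (p + a / 2))]
  have q1 : ((g + s * p) / 2 - s / 4 * a) ^ 2 ≤ (p - a / 2) ^ 2 + g ^ 2 := by
    nlinarith [sq_nonneg (s * g - (p - a / 2))]
  have q2 : ((g - s * p) / 2 + s / 4 * a) ^ 2 ≤ (p - a / 2) ^ 2 + g ^ 2 := by
    nlinarith [sq_nonneg (s * g + (p - a / 2))]
  have q3 : ((g + s * p) / 2 + s / 4 * a) ^ 2 ≤ (p + a / 2) ^ 2 + g ^ 2 := by
    nlinarith [sq_nonneg (s * g - (p + a / 2))]
  have habs : ∀ h : ℝ, h ^ 2 < t ^ 2 → -t ≤ h ∧ h ≤ t := fun h hh => by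
    exact abs_le.1 (abs_le_of_sq_le_sq hh.le t0.le)
  have b0 := habs _ (q0.trans_lt h1)
  have b1 := habs _ (q1.trans_lt h2)
  have b2 := habs _ (q2.trans_lt h2)
  have b3 := habs _ (q3.trans_lt h1)
  have wl : ∀ h : ℝ, h ^ 2 < t ^ 2 → k ≤ √(1 - h ^ 2) ∧ √(1 - h ^ 2) ≤ 1 := fun h hh => by
    constructor
    · refine Real.le_sqrt_of_sq_le ?_
      linarith [D.kk]
    · rw [Real.sqrt_le_left zero_le_one]
      linarith [sq_nonneg h]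
  have v0 := wl _ (q0.trans_lt h1)
  have v1 := wl _ (q1.trans_lt h2)
  have v2 := wl _ (q2.trans_lt h2)
  have v3 := wl _ (q3.trans_lt h1)
  obtain ⟨w0, e0⟩ : ∃ w, w = √(1 - ((g - s * p) / 2 - s / 4 * a) ^ 2) := ⟨_, rfl⟩
  obtain ⟨w1, e1⟩ : ∃ w, w = √(1 - ((g + s * p) / 2 - s / 4 * a) ^ 2) := ⟨_, rfl⟩
  obtain ⟨w2, e2⟩ : ∃ w, w = √(1 - ((g - s * p) / 2 + s / 4 * a) ^ 2) := ⟨_, rfl⟩
  obtain ⟨w3, e3⟩ : ∃ w, w = √(1 - ((g + s * p) / 2 + s / 4 * a) ^ 2) := ⟨_, rfl⟩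
  rw [← e0] at v0 c0
  rw [← e1] at v1 c1
  rw [← e2] at v2 c2
  rw [← e3] at v3 c3
  have η' : 0 ≤ 1 - η := by linarith [D.η1]
  have r0 : ∀ i, 0 ≤ (1 - η) * R i := fun i => mul_nonneg η' (hR0 i)
  have r1 : ∀ i, (1 - η) * R i ≤ (1 - η) * ρ := fun i => mul_le_mul_of_nonneg_left (hR i) η'
  obtain ⟨r, er⟩ : ∃ r : Fin 4 → ℝ, r = fun i => (1 - η) * R i := ⟨_, rfl⟩
  have hr0 : ∀ i, 0 ≤ r i := fun i => by rw [er]; exact r0 i
  have hr1 : ∀ i, r i ≤ (1 - η) * ρ := fun i => by rw [er]; exact r1 i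
  have c0' : C 0 = w0 - ((p + a / 2) / 2 + s / 2 * g) - r 0 := by rw [er]; exact c0
  have c1' : C 1 = w1 - (-(p - a / 2) / 2 + s / 2 * g) - r 1 := by rw [er]; exact c1
  have c2' : C 2 = w2 - (-(p - a / 2) / 2 - s / 2 * g) - r 2 := by rw [er]; exact c2
  have c3' : C 3 = w3 - ((p + a / 2) / 2 - s / 2 * g) - r 3 := by rw [er]; exact c3
  obtain ⟨ρ', eρ⟩ : ∃ ρ', ρ' = (1 - η) * ρ := ⟨_, rfl⟩
  have n1 := D.n1
  have hk := D.hk
  have n2 := D.n2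
  rw [← eρ] at hr1 n1 hk n2 ⊢
  have x0 := hr0 0
  have x1 := hr0 1
  have x2 := hr0 2
  have x3 := hr0 3
  have y0 := hr1 0
  have y1 := hr1 1
  have y2 := hr1 2
  have y3 := hr1 3
  have dv : ∀ x : ℝ, x / s = s * x / 3 := fun x => by
    rw [div_eq_div_iff s0.ne' (by norm_num)]
    linear_combination (-x) * s3
  rw [dv] at l0 l1 l2 l3
  -- `s * l`
  have m0 : s * l 0 = a + 2 * C 0 - C 1 := by
    rw [l0]; linear_combination ((a + (C 0 + C 1) / 2) / 3 + (C 0 - C 1) / 2) * s3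
  have m1' : s * l 1 = a + 2 * C 1 - C 0 := by
    rw [l1]; linear_combination ((a + (C 0 + C 1) / 2) / 3 - (C 0 - C 1) / 2) * s3
  have m2' : s * l 2 = a + 2 * C 2 - C 3 := by
    rw [l2]; linear_combination ((a + (C 2 + C 3) / 2) / 3 + (C 2 - C 3) / 2) * s3
  have m3' : s * l 3 = a + 2 * C 3 - C 2 := by
    rw [l3]; linear_combination ((a + (C 2 + C 3) / 2) / 3 - (C 2 - C 3) / 2) * s3
  have st : s * t ≤ 1.7321 * t := mul_le_mul_of_nonneg_right su.le t0.le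
  have g3 : s * ((g + s * p) / 2 + s / 4 * a) ≤ s * t := mul_le_mul_of_nonneg_left b3.2 s0.le
  have g2 : s * ((g - s * p) / 2 + s / 4 * a) ≤ s * t := mul_le_mul_of_nonneg_left b2.2 s0.le
  have g1 : s * (-t) ≤ s * ((g + s * p) / 2 - s / 4 * a) := mul_le_mul_of_nonneg_left b1.1 s0.le
  have g0 : s * (-t) ≤ s * ((g - s * p) / 2 - s / 4 * a) := mul_le_mul_of_nonneg_left b0.1 s0.le
  have k0' : 2 * (η * ρ) ≤ s * l 0 := by
    have : s * l 0 = 2 * w0 - w1 - 2 * r 0 + r 1 - s * ((g + s * p) / 2 + s / 4 * a) +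
        3 / 2 * a := by
      rw [m0, c0', c1']
      linear_combination (p / 2 + a / 4) * s3
    rw [this]
    linarith [v0.1, v1.2]
  have k1' : 2 * (η * ρ) ≤ s * l 1 := by
    have : s * l 1 = 2 * w1 - w0 - 2 * r 1 + r 0 - s * ((g - s * p) / 2 + s / 4 * a) +
        3 / 2 * a := by
      rw [m1', c0', c1']
      linear_combination (-p / 2 + a / 4) * s3
    rw [this]
    linarith [v1.1, v0.2]
  have k2' : 2 * (η * ρ) ≤ s * l 2 := by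
    have : s * l 2 = 2 * w2 - w3 - 2 * r 2 + r 3 + s * ((g + s * p) / 2 - s / 4 * a) +
        3 / 2 * a := by
      rw [m2', c2', c3']
      linear_combination (-p / 2 + a / 4) * s3
    rw [this]
    linarith [v2.1, v3.2]
  have k3' : 2 * (η * ρ) ≤ s * l 3 := by
    have : s * l 3 = 2 * w3 - w2 - 2 * r 3 + r 2 + s * ((g - s * p) / 2 - s / 4 * a) +
        3 / 2 * a := by
      rw [m3', c2', c3']
      linear_combination (p / 2 + a / 4) * s3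
    rw [this]
    linarith [v3.1, v2.2]
  have key : ∀ i, 2 * (η * ρ) ≤ s * l i := by
    intro i
    fin_cases i
    · exact k0'
    · exact k1'
    · exact k2'
    · exact k3'
  refine ⟨?_, ?_, ?_, ?_, a2t, ?_, ?_⟩
  · intro i
    have := key i
    have h3 : 2 / s * (η * ρ) = 2 * (η * ρ) / s := by ring
    rw [h3, div_le_iff₀ s0]
    linarith
  · have := q_bound sl s3 pt gt v0.1 v0.2 v1.1 v1.2 x0 y0 x1 y1 ha a2t hk n2
    have f1 : p + (C 1 - C 0) / 2 = 3 / 2 * p + (w1 - w0) / 2 - (r 1 - r 0) / 2 := by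
      rw [c0', c1']; ring
    have f2 : g + (C 0 + C 1 - a) / (2 * s) =
        g / 2 + (w0 + w1 - 3 / 2 * a - r 0 - r 1) / (2 * s) := by
      rw [c0', c1']
      field_simp
      ring
    rw [f1, f2]
    exact this
  · have gt' : |-g| ≤ t := by rw [abs_neg]; exact gt
    have := q_bound sl s3 pt gt' v3.1 v3.2 v2.1 v2.2 x3 y3 x2 y2 ha a2t hk n2
    have f1 : p + (C 2 - C 3) / 2 = 3 / 2 * p + (w2 - w3) / 2 - (r 2 - r 3) / 2 := by
      rw [c2', c3']; ring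
    have f2 : g - (C 2 + C 3 - a) / (2 * s) =
        -(-g / 2 + (w3 + w2 - 3 / 2 * a - r 3 - r 2) / (2 * s)) := by
      rw [c2', c3']
      field_simp
      ring
    rw [f1, f2, neg_sq]
    exact this
  · rw [dv]
    have : s * (l 0 + l 1 + l 2 + l 3) = 4 * a + (C 0 + C 1 + C 2 + C 3) := by
      linear_combination m0 + m1' + m2' + m3'
    rw [← this]
    linear_combination (-(l 0 + l 1 + l 2 + l 3) / 3) * s3
  · rw [c0', c1', c2', c3']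
    linarith [v0.1, v1.1, v2.1, v3.1]
  · rw [c0', c1', c2', c3', abs_le]
    constructor
    · linarith [v0.1, v1.1, v2.1, v3.1, v0.2, v1.2, v2.2, v3.2]
    · linarith [v0.1, v1.1, v2.1, v3.1, v0.2, v1.2, v2.2, v3.2]

/-- the last inequality, crude -/
theorem last {t P0 X0 a P X L : ℝ} (ht : 0 < t) (ha : 0 < a) (ha' : a < 2 * t)
    (hP : P0 - a ≤ P) (hX : |X| ≤ X0) (hL : L = (4 * a + P) / √3)
    (f1 : 0 < 0.13395 * P0 - 1.7321 * t) (f2 : 0 < 0.7113 * P0 - 5.1964 * t)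
    (f3 : X0 ^ 2 / 4 < (0.13395 * P0 - 1.7321 * t) * (0.7113 * P0 - 5.1964 * t)) :
    L + √(X ^ 2 / 4 + (P - 2 * a) ^ 2 / 12) < a + P := by
  obtain ⟨s3, s0, sl, su⟩ := s_facts
  obtain ⟨s, es⟩ : ∃ s, s = √3 := ⟨_, rfl⟩
  rw [← es] at s3 s0 sl su hL
  have dv : (4 * a + P) / s = s * (4 * a + P) / 3 := by
    rw [div_eq_div_iff s0.ne' (by norm_num)]
    linear_combination (-(4 * a + P)) * s3
  rw [dv] at hL
  have P0' : 0 < P0 := by nlinarith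
  have Ppos : 0 < P := by nlinarith
  have g1 : 0.13395 * P0 - 1.7321 * t ≤ P * (1 - s / 2) - a * (s - 1) := by nlinarith
  have g2 : 0.7113 * P0 - 5.1964 * t ≤ P * (1 - s / 6) - a * (5 * s / 3 - 1) := by nlinarith
  have hK : (a + P - L) ^ 2 - (P - 2 * a) ^ 2 / 12 =
      (P * (1 - s / 2) - a * (s - 1)) * (P * (1 - s / 6) - a * (5 * s / 3 - 1)) := by
    rw [hL]
    linear_combination ((P - 2 * a) ^ 2 / 36) * s3
  have hX2 : X ^ 2 ≤ X0 ^ 2 := by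
    have := abs_nonneg X
    rw [← sq_abs X]
    nlinarith
  have h3 : (0.13395 * P0 - 1.7321 * t) * (0.7113 * P0 - 5.1964 * t) ≤
      (P * (1 - s / 2) - a * (s - 1)) * (P * (1 - s / 6) - a * (5 * s / 3 - 1)) :=
    mul_le_mul g1 g2 f2.le (f1.le.trans g1)
  have hpos : 0 < a + P - L := by
    rw [hL]
    nlinarith
  have : √(X ^ 2 / 4 + (P - 2 * a) ^ 2 / 12) < a + P - L := by
    rw [Real.sqrt_lt' hpos]
    linarith
  linarith

/-- the crude case -/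
theorem crude {τ t η ρ k : ℝ} (D : Dat τ t η ρ k)
    (f1 : 0 < 0.13395 * (4 * k - 4 * ((1 - η) * ρ)) - 1.7321 * t)
    (f2 : 0 < 0.7113 * (4 * k - 4 * ((1 - η) * ρ)) - 5.1964 * t)
    (f3 : (2 * (1 - k) + 2 * ((1 - η) * ρ)) ^ 2 / 4 <
      (0.13395 * (4 * k - 4 * ((1 - η) * ρ)) - 1.7321 * t) *
      (0.7113 * (4 * k - 4 * ((1 - η) * ρ)) - 5.1964 * t)) : KS_FI τ t η ρ := by
  intro p g a R ha h1 h2 hτ hR0 hR C l c0 c1 c2 c3 l0 l1 l2 l3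
  obtain ⟨m1, m2, m3, m4, m5, m6, m7⟩ :=
    main D p g a R ha h1 h2 hτ hR0 hR C l c0 c1 c2 c3 l0 l1 l2 l3
  exact ⟨m1, m2, m3, last D.t0 ha m5 m6 m7 m4 f1 f2 f3⟩

end Fig63

open Fig63

theorem fi1_row : KS_FI1 :=
  crude (k := 0.9797) ⟨by norm_num, by norm_num, by norm_num, by norm_num, by norm_num,
    by norm_num, by norm_num, by norm_num, by norm_num, by norm_num, by norm_num⟩ (by norm_num)
    (by norm_num) (by norm_num)

theorem fi2_row : KS_FI2 :=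
  crude (k := 0.9682) ⟨by norm_num, by norm_num, by norm_num, by norm_num, by norm_num,
    by norm_num, by norm_num, by norm_num, by norm_num, by norm_num, by norm_num⟩ (by norm_num)
    (by norm_num) (by norm_num)

theorem fi3_row : KS_FI3 :=
  crude (k := 0.96) ⟨by norm_num, by norm_num, by norm_num, by norm_num, by norm_num,
    by norm_num, by norm_num, by norm_num, by norm_num, by norm_num, by norm_num⟩ (by norm_num)
    (by norm_num) (by norm_num)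

end KS
end H11ST
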