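import Pool.Agent.Helper11.KS.Sheet
open MeasureTheory Metric Set Filter Topology Real
open scoped ENNReal NNReal

/-!
# Row FLIP of KS (MP_665203_co): the exchange for the tree with four arms
-/

namespace H11ST
namespace KS
open NH
namespace Flip63

variable {t φ : ℝ} {s : Fin 2 → E 2} {a : ℝ} {v : Fin 4 → E 2} {c rr : Fin 4 → ℝ}

theorem cpt (x y : E 2) : IsCompact (segment ℝ x y) := by
  rw [segment_eq_image_lineMap]
  exact isCompact_Icc.image (by fun_prop)

/-- an arm is a bridge (after `Disj27.bridge` of helper27) -/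
theorem bridge (hE : KS_EXCH) (hG : KS_GEO) {A S : Set (E 2)} {r : ℝ} (H : Setup A S r)
    (ht : t ≤ 3 / 10) (G : Geo4 t φ s a v c rr) (I : InS4 S φ s v) (i : Fin 4) {K : Set (E 2)}
    (hK : IsPreconnected K) (hKS : K ⊆ S)
    (hKT : ∀ z ∈ K, z ∈ segment ℝ (s (ft4 i)) (v i) → z = s (ft4 i) ∨ z = v i)
    (h1 : s (ft4 i) ∈ K) (h2 : v i ∈ K) : False := by
  obtain ⟨-, -, tb, hsplit, hrest, -⟩ := hG t φ s a v c rr ht G
  obtain ⟨rc, -, -, rv, ri⟩ := hrest i
  have hT : segment ℝ (s (ft4 i)) (v i) ⊆ tree4 s v := by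
    rw [hsplit i]; exact subset_union_right
  classical
  have key := hE A S r H.L H.cl (segment ℝ (s (ft4 i)) (v i)) ∅ K {s (ft4 i), v i} (cpt _ _)
    (hT.trans I.sub)
    ((hT.trans tb).trans (closedBall_subset_ball H.r1))
    ⟨s (ft4 i), by simp⟩
    (by
      intro z hz
      simp only [Finset.mem_insert, Finset.mem_singleton] at hz
      rcases hz with rfl | rfl
      · exact left_mem_segment _ _ _
      · exact right_mem_segment _ _ _)
    (by
      intro z hz hzV
      simp only [Finset.mem_insert, Finset.mem_singleton, not_or] at hzV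
      have hzr : z ∉ rest4 s v i := fun h => hzV.1 (ri ⟨h, hz⟩)
      obtain ⟨ε, hε, hl⟩ := I.loc z (hT hz) (by
        intro j hj
        by_cases hji : j = i
        · exact hzV.2 (by rw [hj, hji])
        · exact hzr (hj ▸ rv j hji))
      obtain ⟨δ, hδ, hd⟩ := Metric.isOpen_iff.1 rc.isClosed.isOpen_compl z hzr
      refine ⟨min ε δ, lt_min hε hδ, ?_⟩
      rintro w ⟨hwS, hwb⟩
      have h3 : w ∈ tree4 s v := hl ⟨hwS, ball_subset_ball (min_le_left _ _) hwb⟩
      have h4 : w ∉ rest4 s v i := hd (ball_subset_ball (min_le_right _ _) hwb)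
      rw [hsplit i] at h3
      exact h3.resolve_left h4)
    isCompact_empty (empty_subset _) hKS
    (by
      intro z hz hzT
      simp only [Finset.mem_insert, Finset.mem_singleton]
      exact hKT z hz hzT)
    (by rw [empty_union]; exact hK)
    (by
      intro z hz
      simp only [Finset.mem_insert, Finset.mem_singleton] at hz
      rw [empty_union]
      rcases hz with rfl | rfl
      · exact h1
      · exact h2)
  rw [measure_empty, hausdorffMeasure_segment, nonpos_iff_eq_zero, edist_eq_zero] at key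
  have hv := G.vd i
  rw [← key] at hv
  have h5 : c i • ev (φ + dl4 i) = 0 := by
    have := hv.symm
    rwa [add_eq_left] at this
  have h6 := congrArg norm h5
  rw [norm_smul, norm_ev, mul_one, norm_zero, norm_eq_zero] at h6
  exact (G.cpos i).ne' h6

/-- a piece in the half plane before `v i` meets its own arm only in the end of the arm -/
theorem own (G : Geo4 t φ s a v c rr) (i : Fin 4) {w : E 2}
    (hw : 0 ≤ inner ℝ (w - v i) (ev (φ + dl4 i)))
    (hs : w ∈ segment ℝ (s (ft4 i)) (v i)) : w = v i := by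
  rw [segment_eq_image'] at hs
  obtain ⟨θ, hθ, rfl⟩ := hs
  have e : s (ft4 i) + θ • (v i - s (ft4 i)) = v i - ((1 - θ) * c i) • ev (φ + dl4 i) := by
    have h2 : s (ft4 i) = v i - c i • ev (φ + dl4 i) := by
      rw [G.vd i]; abel
    rw [h2]
    module
  simp only [e] at hw ⊢
  rw [sub_sub_cancel_left, inner_neg_left, real_inner_smul_left, inner_ev, sub_self, cos_zero,
    mul_one] at hw
  have h0 : 0 ≤ (1 - θ) * c i := mul_nonneg (by linarith [hθ.2]) (G.cpos i).le
  have h1 : (1 - θ) * c i = 0 := le_antisymm (by linarith) h0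
  rw [h1, zero_smul, sub_zero]

theorem aed {p q : Set (E 2)} {w : E 2} (h : p ∩ q ⊆ {w}) :
    AEDisjoint (μH[1] : Measure (E 2)) p q := by
  have := Measure.nullSingletonClass_hausdorff (E 2) (d := 1) one_pos
  exact measure_mono_null h (measure_singleton w)

end Flip63

open Flip63 in
/-- the row FLIP -/
theorem flip_row (hE : KS_EXCH) (hG : KS_GEO) : KS_FLIP := by
  intro A S r H t φ s a v c rr ht0 ht G I e l q q' he hgad hl hq hq' hpos
  obtain ⟨tc, tp, tb, hsplit, hrest, hmeas⟩ := hG t φ s a v c rr ht G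
  choose T V g using hgad
  have hball : closedBall (0 : E 2) 1 ⊆ ball 0 r := closedBall_subset_ball H.r1
  have vt : ∀ i, v i ∈ tree4 s v := fun i =>
    Or.inr (mem_iUnion.2 ⟨i, right_mem_segment ℝ _ _⟩)
  have armt : ∀ i, segment ℝ (s (ft4 i)) (v i) ⊆ tree4 s v := fun i => by
    rw [hsplit i]; exact subset_union_right
  have restt : ∀ i, rest4 s v i ⊆ tree4 s v := fun i => by
    rw [hsplit i]; exact subset_union_left
  -- the pieces meet the tree only in `v i`
  have hT : ∀ i, T i ∩ tree4 s v ⊆ {v i} := by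
    rintro i w ⟨hw, hwt⟩
    by_contra hne
    rw [mem_singleton_iff] at hne
    obtain ⟨-, rp, rs, -, ri⟩ := hrest i
    have hwr : w ∈ rest4 s v i := by
      rw [hsplit i] at hwt
      exact hwt.resolve_right fun h => hne (own G i ((g i).half w hw) h)
    refine bridge hE hG H ht G I i (K := T i ∪ rest4 s v i)
      ((g i).conn.union w hw hwr rp)
      (union_subset (g i).sub ((restt i).trans I.sub)) ?_ (Or.inr (rs _)) (Or.inl (g i).vT)
    rintro z (hz | hz) hzs
    · exact Or.inr (own G i ((g i).half z hz) hzs)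
    · exact Or.inl (ri ⟨hz, hzs⟩)
  have hTT : ∀ i j, i ≠ j → T i ∩ T j = ∅ := by
    intro i j hij
    by_contra hne
    obtain ⟨w, hwi, hwj⟩ := nonempty_iff_ne_empty.2 hne
    obtain ⟨-, rp, rs, rv, ri⟩ := hrest i
    have p1 : IsPreconnected (T j ∪ rest4 s v i) :=
      (g j).conn.union (v j) (g j).vT (rv j hij.symm) rp
    refine bridge hE hG H ht G I i (K := T i ∪ (T j ∪ rest4 s v i))
      ((g i).conn.union w hwi (Or.inl hwj) p1)
      (union_subset (g i).sub (union_subset (g j).sub ((restt i).trans I.sub))) ?_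
      (Or.inr (Or.inr (rs _))) (Or.inl (g i).vT)
    rintro z (hz | hz | hz) hzs
    · exact Or.inr (own G i ((g i).half z hz) hzs)
    · left
      have h1 : z = v j := hT j ⟨hz, armt i hzs⟩
      have h2 : z ∈ rest4 s v i := by rw [h1]; exact rv j hij.symm
      exact ri ⟨h2, hzs⟩
    · exact Or.inl (ri ⟨hz, hzs⟩)
  -- the replacements
  have hqn : ∀ i, ‖(![q, q, q', q'] : Fin 4 → E 2) i‖ ≤ 1 := by
    intro i
    fin_cases i
    · exact hq
    · exact hq
    · exact hq'
    · exact hq'
  have hF := fun i => (g i).repl (l i) (hl i) (by rw [hpos i]; exact hqn i)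
  choose F Fc Fp Fq FV Fb Fm using hF
  have l0 : ∀ i, 0 ≤ l i := fun i => (by
    have : 0 ≤ 2 / √3 * e i := mul_nonneg (by positivity) (he i)
    exact this.trans (hl i))
  classical
  have key := hE A S r H.L H.cl (tree4 s v ∪ ⋃ i, T i) ((⋃ i, F i) ∪ segment ℝ q q') ∅
    (Finset.univ.biUnion V) (tc.union (isCompact_iUnion fun i => (g i).comp))
    (union_subset I.sub (iUnion_subset fun i => (g i).sub))
    ((union_subset tb (iUnion_subset fun i => (g i).ball)).trans hball) ?_ ?_ ?_ ?_ ?_
    (empty_subset _) ?_ ?_ ?_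
  · -- the measures
    have m1 : μH[1] (tree4 s v ∪ ⋃ i, T i) = μH[1] (tree4 s v) + ∑ i, μH[1] (T i) := by
      have nT : ∀ i, NullMeasurableSet (T i) (μH[1] : Measure (E 2)) := fun i =>
        (g i).comp.isClosed.measurableSet.nullMeasurableSet
      have hd : AEDisjoint (μH[1] : Measure (E 2)) (tree4 s v) (⋃ i, T i) := by
        rw [AEDisjoint.iUnion_right_iff]
        intro i
        refine aed (w := v i) ?_
        rw [inter_comm]
        exact hT i
      have hp : Pairwise fun i j => AEDisjoint (μH[1] : Measure (E 2)) (T i) (T j) := by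
        intro i j hij
        refine aed (w := v i) ?_
        rw [hTT i j hij]
        exact empty_subset _
      rw [measure_union₀ (NullMeasurableSet.iUnion nT) hd, measure_iUnion₀ hp nT, tsum_fintype]
    have m2 : μH[1] ((⋃ i, F i) ∪ segment ℝ q q') ≤ ENNReal.ofReal (∑ i, l i + dist q q') := by
      refine (measure_union_le _ _).trans ?_
      rw [ENNReal.ofReal_add (Finset.sum_nonneg fun i _ => l0 i) dist_nonneg,
        hausdorffMeasure_segment, edist_dist, ENNReal.ofReal_sum_of_nonneg fun i _ => l0 i]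
      gcongr
      refine (measure_iUnion_le _).trans ?_
      rw [tsum_fintype]
      exact Finset.sum_le_sum fun i _ => Fm i
    have m3 : ENNReal.ofReal (a + ∑ i, (c i + e i)) ≤ μH[1] (tree4 s v ∪ ⋃ i, T i) := by
      rw [m1, hmeas, Finset.sum_add_distrib, ← add_assoc, ENNReal.ofReal_add
        (add_nonneg G.apos.le (Finset.sum_nonneg fun i _ => (G.cpos i).le))
        (Finset.sum_nonneg fun i _ => he i), ENNReal.ofReal_sum_of_nonneg (f := e) fun i _ => he i]
      gcongr with i _
      exact (g i).len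
    exact (ENNReal.ofReal_le_ofReal_iff (add_nonneg (Finset.sum_nonneg fun i _ => l0 i)
      dist_nonneg)).1 ((m3.trans key).trans m2)
  · obtain ⟨z, hz⟩ := (g 0).Vne
    exact ⟨z, Finset.mem_biUnion.2 ⟨0, Finset.mem_univ _, hz⟩⟩
  · intro z hz
    obtain ⟨i, -, hz⟩ := Finset.mem_biUnion.1 hz
    exact Or.inr (mem_iUnion.2 ⟨i, (g i).VT z hz⟩)
  · -- local condition
    intro z hz hzV
    have hzV' : ∀ i, z ∉ V i := fun i h =>
      hzV (Finset.mem_biUnion.2 ⟨i, Finset.mem_univ _, h⟩)
    by_cases hzv : ∃ i, z = v i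
    · obtain ⟨i, rfl⟩ := hzv
      obtain ⟨ε, hε, h⟩ := (g i).locv (hzV' i)
      refine ⟨min ε (c i), lt_min hε (G.cpos i), ?_⟩
      rintro w ⟨hwS, hwb⟩
      rcases h w ⟨hwS, ball_subset_ball (min_le_left _ _) hwb⟩ with h1 | ⟨x, x0, xε, rfl⟩
      · exact Or.inr (mem_iUnion.2 ⟨i, h1⟩)
      · left
        refine armt i ?_
        have hx : x < c i := by
          have h2 := ball_subset_ball (min_le_right _ _) hwb
          rw [mem_ball, dist_eq_norm, sub_sub_cancel_left, norm_neg, norm_smul, norm_ev, mul_one,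
            Real.norm_of_nonneg x0] at h2
          exact h2
        rw [segment_eq_image']
        refine ⟨1 - x / c i, ⟨?_, ?_⟩, ?_⟩
        · have := (div_le_one (G.cpos i)).2 hx.le
          linarith
        · have := div_nonneg x0 (G.cpos i).le
          linarith
        · have h2 : s (ft4 i) = v i - c i • ev (φ + dl4 i) := by
            rw [G.vd i]; abel
          have h3 : v i - s (ft4 i) = c i • ev (φ + dl4 i) := by
            rw [h2]; abel
          have h4 : (1 - x / c i) * c i = c i - x := by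
            rw [sub_mul, one_mul, div_mul_cancel₀ x (G.cpos i).ne']
          show s (ft4 i) + (1 - x / c i) • (v i - s (ft4 i)) = v i - x • ev (φ + dl4 i)
          rw [h3, smul_smul, h4, h2]
          module
    · push Not at hzv
      rcases hz with hz | hz
      · obtain ⟨ε, hε, h⟩ := I.loc z hz hzv
        exact ⟨ε, hε, h.trans subset_union_left⟩
      · obtain ⟨i, hz⟩ := mem_iUnion.1 hz
        obtain ⟨ε, hε, h⟩ := (g i).loc z hz (hzV' i) (hzv i)
        exact ⟨ε, hε, h.trans ((subset_iUnion T i).trans subset_union_right)⟩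
  · exact (isCompact_iUnion fun i => Fc i).union (cpt _ _)
  · refine (union_subset (iUnion_subset fun i => Fb i) ?_).trans hball
    exact (convex_closedBall (0 : E 2) 1).segment_subset (mem_closedBall_zero_iff.2 hq)
      (mem_closedBall_zero_iff.2 hq')
  · intro z hz
    exact hz.elim
  · rw [union_empty]
    refine isPreconnected_of_forall q fun y hy => ?_
    have qF : ∀ i, (![q, q, q', q'] : Fin 4 → E 2) i ∈ F i := fun i => by
      rw [← hpos i]
      exact Fq i
    have ps : IsPreconnected (segment ℝ q q') := (convex_segment _ _).isPreconnected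
    have qs : ∀ i, (![q, q, q', q'] : Fin 4 → E 2) i ∈ segment ℝ q q' := by
      intro i
      fin_cases i
      · exact left_mem_segment ℝ _ _
      · exact left_mem_segment ℝ _ _
      · exact right_mem_segment ℝ _ _
      · exact right_mem_segment ℝ _ _
    rcases hy with hy | hy
    · obtain ⟨i, hy⟩ := mem_iUnion.1 hy
      refine ⟨F i ∪ segment ℝ q q', ?_, Or.inr (left_mem_segment ℝ _ _), Or.inl hy,
        IsPreconnected.union _ (qF i) (qs i) (Fp i) ps⟩
      exact union_subset_union_left _ (subset_iUnion F i)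
    · exact ⟨_, subset_union_right, left_mem_segment ℝ _ _, hy, ps⟩
  · intro z hz
    obtain ⟨i, -, hz⟩ := Finset.mem_biUnion.1 hz
    exact Or.inl (Or.inl (mem_iUnion.2 ⟨i, FV i z hz⟩))

end KS
end H11ST
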