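import Pool.Agent.Helper11.KS.Sheet
open MeasureTheory Metric Set Filter Topology Real
open scoped ENNReal NNReal

/-!
# Row GEO of KS (MP_665203_co): the five segments of the tree with four arms
-/

namespace H11ST
namespace KS
namespace Geo63

/-- the height of a point over the line of the middle edge, in the unit `√3 / 2` -/
noncomputable def ht (φ : ℝ) (s : Fin 2 → E 2) (z : E 2) : ℝ :=
  2 / √3 * inner ℝ (z - s 0) (ev (φ + π / 2))

/-- the coordinate in the direction of the middle edge -/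
noncomputable def xc (φ : ℝ) (s : Fin 2 → E 2) (z : E 2) : ℝ := inner ℝ (z - s 0) (ev φ)

variable {t φ : ℝ} {s : Fin 2 → E 2} {a : ℝ} {v : Fin 4 → E 2} {c rr : Fin 4 → ℝ}

theorem ht_add (z : E 2) (r θ : ℝ) :
    ht φ s (z + r • ev (φ + θ)) = ht φ s z + r * (2 / √3 * sin θ) := by
  have h1 : z + r • ev (φ + θ) - s 0 = (z - s 0) + r • ev (φ + θ) := by abel
  have h2 : φ + θ - (φ + π / 2) = -(π / 2 - θ) := by ring
  rw [ht, ht, h1, inner_add_left, real_inner_smul_left, inner_ev, h2, cos_neg, cos_pi_div_two_sub]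
  ring

theorem xc_add (z : E 2) (r θ : ℝ) :
    xc φ s (z + r • ev (φ + θ)) = xc φ s z + r * cos θ := by
  have h1 : z + r • ev (φ + θ) - s 0 = (z - s 0) + r • ev (φ + θ) := by abel
  rw [xc, xc, h1, inner_add_left, real_inner_smul_left, inner_ev, add_sub_cancel_left]

theorem ht_zero : ht φ s (s 0) = 0 := by
  rw [ht, sub_self, inner_zero_left, mul_zero]

theorem xc_zero : xc φ s (s 0) = 0 := by
  rw [xc, sub_self, inner_zero_left]

theorem s3 : 2 / √3 * (√3 / 2) = 1 := by
  have : √3 ≠ 0 := by positivity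
  field_simp

/-- the heights of the arms -/
def kh : Fin 4 → ℝ := ![1, 1, -1, -1]
/-- the slopes of the arms -/
noncomputable def kx : Fin 4 → ℝ := ![1 / 2, -(1 / 2), -(1 / 2), 1 / 2]

theorem sin_dl (i : Fin 4) : 2 / √3 * sin (dl4 i) = kh i := by
  fin_cases i
  · show 2 / √3 * sin (π / 3) = 1
    rw [sin_pi_div_three, s3]
  · show 2 / √3 * sin (2 * π / 3) = 1
    rw [show 2 * π / 3 = π - π / 3 by ring, sin_pi_sub, sin_pi_div_three, s3]
  · show 2 / √3 * sin (4 * π / 3) = -1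
    rw [show 4 * π / 3 = π / 3 + π by ring, sin_add_pi, sin_pi_div_three, mul_neg, s3]
  · show 2 / √3 * sin (5 * π / 3) = -1
    rw [show 5 * π / 3 = 2 * π - π / 3 by ring, sin_two_pi_sub, sin_pi_div_three, mul_neg, s3]

theorem cos_dl (i : Fin 4) : cos (dl4 i) = kx i := by
  fin_cases i
  · show cos (π / 3) = 1 / 2
    exact cos_pi_div_three
  · show cos (2 * π / 3) = -(1 / 2)
    rw [show 2 * π / 3 = π - π / 3 by ring, cos_pi_sub, cos_pi_div_three]
  · show cos (4 * π / 3) = -(1 / 2)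
    rw [show 4 * π / 3 = π / 3 + π by ring, cos_add_pi, cos_pi_div_three]
  · show cos (5 * π / 3) = 1 / 2
    rw [show 5 * π / 3 = 2 * π - π / 3 by ring, cos_two_pi_sub, cos_pi_div_three]

theorem ht_one (g : Geo4 t φ s a v c rr) : ht φ s (s 1) = 0 := by
  have : s 1 = s 0 + a • ev (φ + 0) := by rw [add_zero]; exact g.s1
  rw [this, ht_add, sin_zero, ht_zero]
  ring

theorem xc_one (g : Geo4 t φ s a v c rr) : xc φ s (s 1) = a := by
  have : s 1 = s 0 + a • ev (φ + 0) := by rw [add_zero]; exact g.s1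
  rw [this, xc_add, cos_zero, xc_zero]
  ring

/-- the coordinates of the feet -/
def fx (a : ℝ) : Fin 4 → ℝ := ![a, 0, 0, a]

theorem ht_ft (g : Geo4 t φ s a v c rr) (i : Fin 4) : ht φ s (s (ft4 i)) = 0 := by
  fin_cases i
  · exact ht_one g
  · exact ht_zero
  · exact ht_zero
  · exact ht_one g

theorem xc_ft (g : Geo4 t φ s a v c rr) (i : Fin 4) : xc φ s (s (ft4 i)) = fx a i := by
  fin_cases i
  · exact xc_one g
  · exact xc_zero
  · exact xc_zero
  · exact xc_one g

theorem seg {x u z : E 2} {l : ℝ} (hl : 0 ≤ l) (h : z ∈ segment ℝ x (x + l • u)) :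
    ∃ r, 0 ≤ r ∧ r ≤ l ∧ z = x + r • u := by
  rw [segment_eq_image'] at h
  obtain ⟨θ, ⟨h0, h1⟩, rfl⟩ := h
  refine ⟨θ * l, mul_nonneg h0 hl, mul_le_of_le_one_left hl h1, ?_⟩
  show x + θ • (x + l • u - x) = x + (θ * l) • u
  rw [add_sub_cancel_left, smul_smul]

theorem arm (g : Geo4 t φ s a v c rr) (i : Fin 4) {z : E 2}
    (hz : z ∈ segment ℝ (s (ft4 i)) (v i)) :
    ∃ r, 0 ≤ r ∧ z = s (ft4 i) + r • ev (φ + dl4 i) ∧ ht φ s z = r * kh i ∧
      xc φ s z = fx a i + r * kx i := by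
  rw [g.vd i] at hz
  obtain ⟨r, h0, h1, rfl⟩ := seg (g.cpos i).le hz
  refine ⟨r, h0, rfl, ?_, ?_⟩
  · rw [ht_add, ht_ft g, sin_dl, zero_add]
  · rw [xc_add, xc_ft g, cos_dl]

theorem edge (g : Geo4 t φ s a v c rr) {z : E 2} (hz : z ∈ segment ℝ (s 0) (s 1)) :
    ht φ s z = 0 := by
  have e1 : s 1 = s 0 + a • ev (φ + 0) := by rw [add_zero]; exact g.s1
  rw [e1] at hz
  obtain ⟨r, h0, h1, rfl⟩ := seg g.apos.le hz
  rw [ht_add, sin_zero, ht_zero]
  ring

theorem ea (g : Geo4 t φ s a v c rr) (i : Fin 4) :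
    segment ℝ (s 0) (s 1) ∩ segment ℝ (s (ft4 i)) (v i) ⊆ {s (ft4 i)} := by
  rintro z ⟨h1, h2⟩
  obtain ⟨r, r0, rz, rh, -⟩ := arm g i h2
  rw [edge g h1] at rh
  have hr : r = 0 := by
    fin_cases i <;> simp [kh] at rh <;> linarith
  rw [hr, zero_smul, add_zero] at rz
  exact rz

theorem aa (g : Geo4 t φ s a v c rr) (i j : Fin 4) (hij : i ≠ j) :
    segment ℝ (s (ft4 i)) (v i) ∩ segment ℝ (s (ft4 j)) (v j) ⊆ {s (ft4 j)} := by
  rintro z ⟨h1, h2⟩
  obtain ⟨q, q0, qz, qh, qx⟩ := arm g i h1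
  obtain ⟨r, r0, rz, rh, rx⟩ := arm g j h2
  have p0 := g.apos
  rw [qh] at rh
  rw [qx] at rx
  have hr : r = 0 := by
    fin_cases i <;> fin_cases j <;> simp [kh, kx, fx] at rh rx hij ⊢ <;> linarith
  rw [hr, zero_smul, add_zero] at rz
  exact rz

theorem cpt (x y : E 2) : IsCompact (segment ℝ x y) := by
  rw [segment_eq_image_lineMap]
  exact isCompact_Icc.image (by fun_prop)

theorem ft_mem (i : Fin 4) : s (ft4 i) ∈ segment ℝ (s 0) (s 1) := by
  fin_cases i
  · exact right_mem_segment ℝ _ _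
  · exact left_mem_segment ℝ _ _
  · exact left_mem_segment ℝ _ _
  · exact right_mem_segment ℝ _ _

theorem prec (J : Set (Fin 4)) :
    IsPreconnected (segment ℝ (s 0) (s 1) ∪ ⋃ j ∈ J, segment ℝ (s (ft4 j)) (v j)) := by
  refine isPreconnected_of_forall (s 0) fun y hy => ?_
  have pe : IsPreconnected (segment ℝ (s 0) (s 1)) := (convex_segment _ _).isPreconnected
  rcases hy with hy | hy
  · exact ⟨_, subset_union_left, left_mem_segment ℝ _ _, hy, pe⟩
  · simp only [mem_iUnion] at hy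
    obtain ⟨j, hj, hy⟩ := hy
    refine ⟨segment ℝ (s 0) (s 1) ∪ segment ℝ (s (ft4 j)) (v j), ?_,
      Or.inl (left_mem_segment ℝ _ _), Or.inr hy,
      IsPreconnected.union _ (ft_mem j) (left_mem_segment ℝ _ _) pe
        (convex_segment _ _).isPreconnected⟩
    exact union_subset_union_right _ (subset_biUnion_of_mem (u := fun j =>
      segment ℝ (s (ft4 j)) (v j)) hj)

theorem comp (J : Set (Fin 4)) :
    IsCompact (segment ℝ (s 0) (s 1) ∪ ⋃ j ∈ J, segment ℝ (s (ft4 j)) (v j)) :=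
  (cpt _ _).union ((Set.toFinite J).isCompact_biUnion fun _ _ => cpt _ _)

theorem tree_eq : tree4 s v =
    segment ℝ (s 0) (s 1) ∪ ⋃ j ∈ (univ : Set (Fin 4)), segment ℝ (s (ft4 j)) (v j) := by
  rw [tree4, biUnion_univ]

theorem aed {p q : Set (E 2)} {w : E 2} (h : p ∩ q ⊆ {w}) :
    AEDisjoint (μH[1] : Measure (E 2)) p q := by
  have := Measure.nullSingletonClass_hausdorff (E 2) (d := 1) one_pos
  exact measure_mono_null h (measure_singleton w)

theorem seglen {x u : E 2} {l : ℝ} (hl : 0 ≤ l) (hu : ‖u‖ = 1) :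
    μH[1] (segment ℝ x (x + l • u)) = ENNReal.ofReal l := by
  rw [hausdorffMeasure_segment, edist_dist, dist_self_add_right, norm_smul, hu, mul_one,
    Real.norm_of_nonneg hl]

end Geo63

open Geo63 in
/-- the row GEO -/
theorem geo_row : KS_GEO := by
  intro t φ s a v c rr ht g
  have sn : ∀ k, s k ∈ closedBall (0 : E 2) 1 := fun k => by
    rw [mem_closedBall_zero_iff]
    linarith [g.sn k]
  have vn : ∀ i, v i ∈ closedBall (0 : E 2) 1 := fun i => mem_closedBall_zero_iff.2 (g.vup i)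
  have cb := convex_closedBall (0 : E 2) 1
  refine ⟨by rw [tree_eq]; exact comp _, by rw [tree_eq]; exact prec _, ?_, ?_, ?_, ?_⟩
  · exact union_subset (cb.segment_subset (sn 0) (sn 1))
      (iUnion_subset fun i => cb.segment_subset (sn _) (vn i))
  · intro i
    rw [tree4, rest4, union_assoc]
    congr 1
    ext z
    simp only [mem_iUnion, mem_union]
    constructor
    · rintro ⟨j, hj⟩
      by_cases h : j = i
      · rw [h] at hj
        exact Or.inr hj
      · exact Or.inl ⟨j, h, hj⟩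
    · rintro (⟨j, -, hj⟩ | h)
      · exact ⟨j, hj⟩
      · exact ⟨i, h⟩
  · intro i
    refine ⟨comp _, prec _, ?_, ?_, ?_⟩
    · intro k
      left
      fin_cases k
      · exact left_mem_segment ℝ _ _
      · exact right_mem_segment ℝ _ _
    · intro j hj
      right
      simp only [mem_iUnion]
      exact ⟨j, hj, right_mem_segment ℝ _ _⟩
    · rintro z ⟨h1 | h1, h2⟩
      · exact ea g i ⟨h1, h2⟩
      · simp only [mem_iUnion] at h1
        obtain ⟨j, hj, h1⟩ := h1
        exact aa g j i hj ⟨h1, h2⟩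
  · have nm : ∀ x y : E 2, NullMeasurableSet (segment ℝ x y) (μH[1] : Measure (E 2)) := fun x y =>
      (cpt x y).isClosed.measurableSet.nullMeasurableSet
    have hU : NullMeasurableSet (⋃ i, segment ℝ (s (ft4 i)) (v i)) (μH[1] : Measure (E 2)) :=
      NullMeasurableSet.iUnion fun i => nm _ _
    have hd : AEDisjoint (μH[1] : Measure (E 2)) (segment ℝ (s 0) (s 1))
        (⋃ i, segment ℝ (s (ft4 i)) (v i)) := by
      rw [AEDisjoint.iUnion_right_iff]
      exact fun i => aed (ea g i)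
    have hp : Pairwise fun i j => AEDisjoint (μH[1] : Measure (E 2)) (segment ℝ (s (ft4 i)) (v i))
        (segment ℝ (s (ft4 j)) (v j)) := fun i j hij => aed (aa g i j hij)
    rw [tree4, measure_union₀ hU hd, measure_iUnion₀ hp fun i => nm _ _, tsum_fintype]
    have l1 : μH[1] (segment ℝ (s 0) (s 1)) = ENNReal.ofReal a := by
      rw [g.s1]
      exact seglen g.apos.le (norm_ev _)
    have l3 : ∀ i, μH[1] (segment ℝ (s (ft4 i)) (v i)) = ENNReal.ofReal (c i) := by
      intro i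
      rw [g.vd i]
      exact seglen (g.cpos i).le (norm_ev _)
    rw [l1, Finset.sum_congr rfl fun i _ => l3 i,
      ← ENNReal.ofReal_sum_of_nonneg fun i _ => (g.cpos i).le,
      ← ENNReal.ofReal_add g.apos.le (Finset.sum_nonneg fun i _ => (g.cpos i).le)]

end KS
end H11ST
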