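import Pool.Agent.Helper11.KS.Sheet
open MeasureTheory Metric Set Filter Topology Real
open scoped ENNReal NNReal

/-!
# Row GROW of KS (MP_665203_co)
-/

namespace H11ST
namespace KS
open NH

theorem GrowP.edge {S : Set (E 2)} {v e : E 2} {X x : ℝ} (h : Edge S v e X) (h0 : 0 < x)
    (hx : x ≤ X) : Edge S v e x where
  pos := h0
  ray := fun s' h1 h2 => h.ray s' h1 (h2.trans_le hx)
  mem := fun s h1 h2 => h.mem s h1 (h2.trans hx)

theorem GrowP.norm_le {v d : E 2} {e rr : ℝ} (hv : ‖v‖ ≤ 1) (h : ‖v + rr • d‖ ≤ 1) (h0 : 0 ≤ e)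
    (he : e ≤ rr) : ‖v + e • d‖ ≤ 1 := by
  rcases eq_or_lt_of_le (h0.trans he) with hr | hr
  · have : e = rr := le_antisymm he (by rw [← hr]; exact h0)
    rw [this]
    exact h
  · have h1 : v + e • d = (1 - e / rr) • v + (e / rr) • (v + rr • d) := by
      rw [smul_add, smul_smul, div_mul_cancel₀ e hr.ne', sub_smul, one_smul]
      abel
    have h2 : 0 ≤ e / rr := div_nonneg h0 hr.le
    have h3 : 0 ≤ 1 - e / rr := by
      have := (div_le_one hr).2 he
      linarith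
    calc ‖v + e • d‖ = ‖(1 - e / rr) • v + (e / rr) • (v + rr • d)‖ := by rw [← h1]
      _ ≤ ‖(1 - e / rr) • v‖ + ‖(e / rr) • (v + rr • d)‖ := norm_add_le _ _
      _ = (1 - e / rr) * ‖v‖ + e / rr * ‖v + rr • d‖ := by
          rw [norm_smul, norm_smul, Real.norm_of_nonneg h2, Real.norm_of_nonneg h3]
      _ ≤ (1 - e / rr) * 1 + e / rr * 1 := by gcongr
      _ = 1 := by ring

/-- the row GROW -/
theorem grow_row (hL : KS_LNG) (hA : KS_GA) (hB : KS_GB) : KS_GROW := by
  intro A S r hS τ ht1 ht2 hsep v β σ e rr hσ hv hT he her hrr hU hek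
  have hτ0 : 0 < τ := by linarith
  have hσ' : -σ = 1 ∨ -σ = -1 := by
    rcases hσ with h | h
    · right; rw [h]
    · left; rw [h]; norm_num
  obtain ⟨κ, hκ⟩ : ∃ κ, κ = 2 * τ / (1 + τ) := ⟨_, rfl⟩
  have k1 : 23 / 100 ≤ κ := by
    rw [hκ, le_div_iff₀ (by linarith)]
    linarith
  have k2 : κ ≤ 1 / 2 := by
    rw [hκ, div_le_iff₀ (by linarith)]
    linarith
  have lng := hL A S r hS τ hτ0 (by linarith) hsep
  rw [← hκ] at lng hek
  obtain ⟨U, eU⟩ : ∃ U, U = 1 - ‖v‖ := ⟨_, rfl⟩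
  have hU0 : 0 < U := by rw [eU]; linarith
  obtain ⟨X, hX, hXk, -⟩ := lng v β (-σ) hσ' hv hT
  obtain ⟨Y, hY, hYk, hYe⟩ := lng v β σ hσ hv hT
  rw [show β + -σ * (π / 3) = β - σ * (π / 3) by ring] at hX
  rw [← eU] at hXk hYk hek hU
  have hX0 := hX.pos
  have hY0 := hY.pos
  have hnorm : ‖v + e • ev β‖ ≤ 1 := GrowP.norm_le hv.le hrr.le he.le her
  have kU : 0 < κ * U := mul_pos (by linarith) hU0
  have e3 : e < 3 * Y := by nlinarith
  -- the case (B)
  have caseB : ¬ (e / 2 ≤ X ∧ e / 2 ≤ Y) → ¬ (X < e / 2 ∧ e - X ≤ Y) → Gad S v β σ e := by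
    intro n1 n2
    have hlow : (Y < e / 2) ∨ (X < e / 2 ∧ Y < e - X) := by
      rcases lt_or_ge Y (e / 2) with h | h
      · exact Or.inl h
      · right
        have h1 : X < e / 2 := by
          by_contra h2
          exact n1 ⟨not_lt.1 h2, h⟩
        refine ⟨h1, ?_⟩
        by_contra h2
        exact n2 ⟨h1, not_lt.1 h2⟩
    have hYU : Y < U := by
      rcases hlow with h | ⟨h, h'⟩
      · nlinarith
      · nlinarith
    obtain ⟨w, ew⟩ : ∃ w, w = v + Y • ev (β + σ * (π / 3)) := ⟨_, rfl⟩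
    have hw1 : ‖w‖ ≤ ‖v‖ + Y := by
      rw [ew]
      refine (norm_add_le _ _).trans ?_
      rw [norm_smul, norm_ev, mul_one, Real.norm_of_nonneg hY0.le]
    rw [← ew] at hYe
    have hw : ‖w‖ < 1 ∧ TriB S w (β + σ * (π / 3)) := by
      rcases hYe with h | h
      · exfalso
        rw [h] at hw1
        linarith
      · exact h
    obtain ⟨Z1, hZ1, hZ1k, -⟩ := lng w (β + σ * (π / 3)) σ hσ hw.1 hw.2
    obtain ⟨Z2, hZ2, hZ2k, -⟩ := lng w (β + σ * (π / 3)) (-σ) hσ' hw.1 hw.2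
    rw [show β + σ * (π / 3) + σ * (π / 3) = β + σ * (2 * π / 3) by ring] at hZ1
    rw [show β + σ * (π / 3) + -σ * (π / 3) = β by ring] at hZ2
    have hzk : κ * (U - Y) ≤ κ * (1 - ‖w‖) :=
      mul_le_mul_of_nonneg_left (by rw [eU]; linarith) (by linarith)
    obtain ⟨x, ex⟩ : ∃ x, x = min X (3 * Y - e) := ⟨_, rfl⟩
    have hx1 : x ≤ X := by rw [ex]; exact min_le_left _ _
    have hx2 : x ≤ 3 * Y - e := by rw [ex]; exact min_le_right _ _
    have hx0 : 0 < x := by
      rw [ex]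
      exact lt_min hX0 (by linarith)
    obtain ⟨z, ez⟩ : ∃ z, z = (e - x - Y) / 2 := ⟨_, rfl⟩
    have hz0 : 0 < z := by
      rw [ez]
      rcases hlow with h | ⟨h, h'⟩
      · linarith
      · linarith
    have hz1 : z ≤ κ * (U - Y) := by
      rw [ez]
      rcases min_choice X (3 * Y - e) with h | h
      · rw [h] at ex
        rw [ex]
        nlinarith
      · rw [h] at ex
        rw [ex]
        nlinarith
    have hxyz : x + Y + 2 * z = e := by rw [ez]; ring
    have := hB S v β σ x Y z hσ (by rw [ez]; linarith) hT (GrowP.edge hX hx0 hx1) hY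
      (by rw [← ew]; exact hw.2)
      (by rw [← ew]; exact GrowP.edge hZ1 hz0 ((hz1.trans hzk).trans hZ1k))
      (by rw [← ew]; exact GrowP.edge hZ2 hz0 ((hz1.trans hzk).trans hZ2k))
      (by rw [hxyz]; exact hnorm)
    rwa [hxyz] at this
  by_cases n1 : e / 2 ≤ X ∧ e / 2 ≤ Y
  · have := hA S v β σ (e / 2) (e / 2) hσ le_rfl hT (GrowP.edge hX (by linarith) n1.1)
      (GrowP.edge hY (by linarith) n1.2) (by rw [add_halves]; exact hnorm)
    rwa [add_halves] at this
  · by_cases n2 : X < e / 2 ∧ e - X ≤ Y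
    · have h1 : X + (e - X) = e := by ring
      have := hA S v β σ X (e - X) hσ (by linarith [n2.1]) hT hX
        (GrowP.edge hY (by linarith [n2.1]) n2.2) (by rw [h1]; exact hnorm)
      rwa [h1] at this
    · exact caseB n1 n2

end KS
end H11ST
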